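import Pool.Agent.H66.IQ.TD

/-!
Row EVS of the board iq: the values with and without soft choices.
-/

set_option autoImplicit false

open Finset Pool.Agent.H6.NB Pool.Agent.H66.IQ

namespace Pool.Agent.H67.IQ

theorem pf_EVS (hSMA : Pool.Agent.H66.IP.T_SMA) : T_EVS := by
  intro V β t y hβ
  induction t with
  | lf a =>
    have h : bi (a.f y) = 0 ∨ bi (a.f y) = 1 := by
      unfold bi
      split_ifs
      · exact Or.inr rfl
      · exact Or.inl rfl
    simp only [Tr.sv, Tr.ev, Tr.cc, Nat.cast_zero, zero_div, add_zero, le_refl, true_and,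
      and_true]
    rcases h with h | h <;> rw [h] <;> norm_num
  | av l r ihl ihr =>
    obtain ⟨l0, l1, l2, l3⟩ := ihl
    obtain ⟨r0, r1, r2, r3⟩ := ihr
    simp only [Tr.sv, Tr.ev, Tr.cc]
    have hl : ((l.cc : ℕ) : ℝ) / β ≤ ((max l.cc r.cc : ℕ) : ℝ) / β :=
      div_le_div_of_nonneg_right (by exact_mod_cast le_max_left _ _) hβ.le
    have hr : ((r.cc : ℕ) : ℝ) / β ≤ ((max l.cc r.cc : ℕ) : ℝ) / β :=
      div_le_div_of_nonneg_right (by exact_mod_cast le_max_right _ _) hβ.le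
    refine ⟨by linarith, by linarith, by linarith, by linarith⟩
  | ch l r ihl ihr =>
    obtain ⟨l0, l1, l2, l3⟩ := ihl
    obtain ⟨r0, r1, r2, r3⟩ := ihr
    simp only [Tr.sv, Tr.ev, Tr.cc]
    obtain ⟨⟨h1, h2, h3, _⟩, _⟩ := hSMA β hβ (l.sv β y) (r.sv β y)
    have hl : ((l.cc : ℕ) : ℝ) / β ≤ ((max l.cc r.cc : ℕ) : ℝ) / β :=
      div_le_div_of_nonneg_right (by exact_mod_cast le_max_left _ _) hβ.le
    have hr : ((r.cc : ℕ) : ℝ) / β ≤ ((max l.cc r.cc : ℕ) : ℝ) / β :=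
      div_le_div_of_nonneg_right (by exact_mod_cast le_max_right _ _) hβ.le
    have hcast : (((max l.cc r.cc + 1 : ℕ) : ℕ) : ℝ) / β =
        ((max l.cc r.cc : ℕ) : ℝ) / β + 1 / β := by
      rw [Nat.cast_add, Nat.cast_one, add_div]
    refine ⟨(le_min l0 r0).trans h2, h3.trans (max_le_max l1 r1), max_le l2 r2, ?_⟩
    rw [hcast]
    have ha : l.ev y ≤ max (l.sv β y) (r.sv β y) + ((max l.cc r.cc : ℕ) : ℝ) / β :=
      l3.trans (add_le_add (le_max_left _ _) hl)
    have hb : r.ev y ≤ max (l.sv β y) (r.sv β y) + ((max l.cc r.cc : ℕ) : ℝ) / β :=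
      r3.trans (add_le_add (le_max_right _ _) hr)
    have := max_le ha hb
    linarith

end Pool.Agent.H67.IQ
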